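import Mathlib
import Pool.Agent.Results.MP_090c48_co.No

set_option autoImplicit false

namespace Pool.Agent.Results.MP_ab9fcb_co.Six

open Finset Pool.Agent.H1.Pd Pool.Agent.Results.MP_090c48_co.No

section T
variable {V V' : Type} [Fintype V] [DecidableEq V] [Fintype V'] [DecidableEq V'] [Nonempty V]
variable {H : SimpleGraph V} {K : SimpleGraph V'} {f : V → V'}

theorem chi_tr (hf : Function.Injective f) (h : ∀ a b, H.Adj a b ↔ K.Adj (f a) (f b))
    (S : Finset V) : chi H S = chi K (S.image f) := by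
  apply le_antisymm
  · obtain ⟨c, h1, h2⟩ := chi_spec K (S.image f)
    exact chi_le (fun x => c (f x)) (fun x hx => h1 _ (mem_image_of_mem _ hx))
      (fun x hx y hy e => h2 _ (mem_image_of_mem _ hx) _ (mem_image_of_mem _ hy) ((h _ _).1 e))
  · obtain ⟨c, h1, h2⟩ := chi_spec H S
    have li := Function.leftInverse_invFun hf
    refine chi_le (fun y => c (Function.invFun f y)) ?_ ?_
    · intro y hy
      obtain ⟨x, hx, rfl⟩ := mem_image.1 hy
      rw [li]; exact h1 x hx
    · intro y hy z hz e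
      obtain ⟨x, hx, rfl⟩ := mem_image.1 hy
      obtain ⟨w, hw, rfl⟩ := mem_image.1 hz
      rw [li, li]; exact h2 x hx w hw ((h _ _).2 e)

theorem omega_tr (hf : Function.Injective f) (h : ∀ a b, H.Adj a b ↔ K.Adj (f a) (f b))
    (S : Finset V) : omega H S = omega K (S.image f) := by
  apply le_antisymm
  · obtain ⟨T, hT, hc⟩ := omega_spec H S
    refine le_omega (image_subset_image hT) ⟨?_, by rw [card_image_of_injective _ hf, hc.2]⟩
    intro y hy z hz e
    obtain ⟨x, hx, rfl⟩ := mem_image.1 hy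
    obtain ⟨w, hw, rfl⟩ := mem_image.1 hz
    exact (h _ _).1 (hc.1 hx hw (fun e' => e (by rw [e'])))
  · obtain ⟨T, hT, hc⟩ := omega_spec K (S.image f)
    obtain ⟨U, hU, rfl⟩ := subset_image_iff.1 hT
    refine le_omega hU ⟨?_, by rw [← hc.2, card_image_of_injective _ hf]⟩
    intro x hx y hy e
    exact (h _ _).2 (hc.1 (mem_image_of_mem _ hx) (mem_image_of_mem _ hy) (fun e' => e (hf e')))

theorem pd_tr (hf : Function.Injective f) (h : ∀ a b, H.Adj a b ↔ K.Adj (f a) (f b))
    (hK : PD K (univ.image f)) : PD H univ := by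
  intro S hS ⟨x, hx, y, hy, e⟩
  obtain ⟨A', hA, hp, ho⟩ := hK (S.image f) (image_subset_image hS)
    ⟨_, mem_image_of_mem _ hx, _, mem_image_of_mem _ hy, (h _ _).1 e⟩
  obtain ⟨A, hA', rfl⟩ := subset_image_iff.1 hA
  refine ⟨A, hA', fun T hT => ?_, ?_⟩
  · rw [chi_tr hf h, omega_tr hf h]; exact hp _ (image_subset_image hT)
  · rw [omega_tr hf h, omega_tr hf h, image_sdiff _ _ hf]; exact ho

omit [Nonempty V] in
theorem card_le_mul (G : SimpleGraph V) (S : Finset V) : S.card ≤ omega Gᶜ S * chi G S := by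
  obtain ⟨c, h1, h2⟩ := chi_spec G S
  have := card_le_mul_card_image_of_maps_to (f := c) (s := S) (t := range (chi G S))
    (fun x hx => by simpa using h1 x hx) (omega Gᶜ S) (fun b _ => ?_)
  · simpa using this
  · refine le_omega (filter_subset _ _) ⟨?_, rfl⟩
    intro x hx y hy hne
    simp only [coe_filter, Set.mem_ofPred_eq] at hx hy
    exact ⟨hne, fun h => h2 x hx.1 y hy.1 h (hx.2.trans hy.2.symm)⟩

omit [Nonempty V] in
theorem chi_split (G : SimpleGraph V) (S A : Finset V) : chi G S ≤ chi G A + chi G (S \ A) := by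
  obtain ⟨c, c1, c2⟩ := chi_spec G A
  obtain ⟨d, d1, d2⟩ := chi_spec G (S \ A)
  refine chi_le (fun x => if x ∈ A then c x else chi G A + d x) ?_ ?_
  · intro x hx
    split_ifs with e
    · have := c1 x e; omega
    · have := d1 x (mem_sdiff.2 ⟨hx, e⟩); omega
  · intro x hx y hy e
    split_ifs with e1 e2 e2
    · exact c2 x e1 y e2 e
    · have := c1 x e1; omega
    · have := c1 y e2; omega
    · have := d2 x (mem_sdiff.2 ⟨hx, e1⟩) y (mem_sdiff.2 ⟨hy, e2⟩) e; omega

omit [Nonempty V] in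
theorem upper {G : SimpleGraph V} (h : PD G univ) :
    ∀ m, ∀ S : Finset V, omega G S ≤ m → 2 * chi G S ≤ m * (m + 1) := by
  intro m
  induction m with
  | zero =>
    intro S hS
    rcases S.eq_empty_or_nonempty with rfl | ⟨x, hx⟩
    · have : chi G ∅ ≤ 0 := chi_le (fun _ => 0) (by simp) (by simp)
      omega
    · have : 1 ≤ omega G S := le_omega (T := {x}) (by simpa using hx) (by simp)
      omega
  | succ m ih =>
    intro S hS
    by_cases he : ∃ x ∈ S, ∃ y ∈ S, G.Adj x y
    · obtain ⟨A, hA, hp, ho⟩ := h S (subset_univ _) he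
      have h1 := ih (S \ A) (by omega)
      have h2 := chi_split G S A
      have h3 : chi G A ≤ omega G S := by
        rw [hp A (subset_refl _)]
        obtain ⟨T, hT, hc⟩ := omega_spec G A
        exact le_omega (hT.trans hA) hc
      nlinarith
    · push Not at he
      have : chi G S ≤ 1 := chi_le (fun _ => 0) (by simp)
        (fun a ha b hb hab => absurd hab (he a ha b hb))
      nlinarith

end T

theorem pdW (W : Finset (Fin 18)) (x : Fin 18) (hx : x ∉ W) : PD G W := by
  intro S hS he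
  by_cases ht : Tri G S
  · refine ⟨S.filter (fun i => (aM x).testBit i = true), filter_subset _ _,
      perfA x _ (fun i hi => (mem_filter.1 hi).2), lt_of_lt_of_le ?_ (three_le ht)⟩
    by_contra h3
    obtain ⟨a, ha, b, hb, c, hc, t1, t2, t3⟩ := tri_of (not_lt.1 h3)
    simp only [mem_sdiff, mem_filter, not_and] at ha hb hc
    have ne : ∀ i ∈ S, i ≠ x := fun i hi e => hx (e ▸ hS hi)
    exact hc.2 hc.1 (k4 x a (ne a ha.1) (ha.2 ha.1) b t1 (ne b hb.1) (hb.2 hb.1) c t2 t3
      (ne c hc.1))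
  · exact div_of_three ((three S).resolve_left ht) he

def f1 (a : Fin 16) : Fin 18 := if (a : ℕ) < 9 then ⟨a, by omega⟩ else ⟨a + 1, by omega⟩

def f2 (a : Fin 16) : Fin 18 := ⟨(3 * (f1 a : ℕ) + 16) % 17, by omega⟩

def P : SimpleGraph (Fin 16) := G.comap f1

theorem hf1 : Function.Injective f1 := by decide +kernel

theorem hf2 : Function.Injective f2 := by decide +kernel

theorem hc2 : ∀ a b : Fin 16, (a ≠ b ∧ ¬ G.Adj (f1 a) (f1 b)) ↔ G.Adj (f2 a) (f2 b) := by
  decide +kernel

theorem om3 (S : Finset (Fin 18)) : omega G S ≤ 3 := by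
  by_contra h4
  obtain ⟨w, x, y, z, a1, a2, a3, a4, a5, a6⟩ := four_of (G := G) (S := S) (by omega)
  exact k5 w x a1 y a2 a3 z a4 a5 a6

theorem result : IsGreatest {c : ℕ | ∃ (n : ℕ) (H : SimpleGraph (Fin n)),
    PD H univ ∧ PD Hᶜ univ ∧ omega H univ = 3 ∧ chi H univ = c} 6 := by
  have e1 : ∀ a b, P.Adj a b ↔ G.Adj (f1 a) (f1 b) := fun _ _ => Iff.rfl
  have e2 : ∀ a b, Pᶜ.Adj a b ↔ G.Adj (f2 a) (f2 b) := hc2
  have p1 : PD P univ := pd_tr hf1 e1 (pdW _ 17 (by decide +kernel))
  have p2 : PD Pᶜ univ := pd_tr hf2 e2 (pdW _ 17 (by decide +kernel))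
  have o1 : omega P univ = 3 := by
    apply le_antisymm
    · rw [omega_tr hf1 e1]; exact om3 _
    · exact three_le ⟨0, mem_univ _, 1, mem_univ _, 2, mem_univ _,
        (e1 _ _).2 (by decide +kernel), (e1 _ _).2 (by decide +kernel),
        (e1 _ _).2 (by decide +kernel)⟩
  have o2 : omega Pᶜ univ ≤ 3 := by rw [omega_tr hf2 e2]; exact om3 _
  constructor
  · refine ⟨16, P, p1, p2, o1, ?_⟩
    have h1 := upper p1 3 univ o1.le
    have h2 := card_le_mul P univ
    have h3 : omega Pᶜ univ * chi P univ ≤ 3 * chi P univ := Nat.mul_le_mul_right _ o2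
    simp only [card_univ, Fintype.card_fin] at h2
    omega
  · rintro c ⟨n, H, h1, _, h3, rfl⟩
    have := upper h1 3 univ h3.le
    omega

end Pool.Agent.Results.MP_ab9fcb_co.Six
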