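import Mathlib

set_option autoImplicit false

namespace Pool.Agent.Results.MP_ab9fcb_co.Three

open Finset

section Defs
variable {V : Type} [Fintype V] [DecidableEq V]

/-- chromatic number of the subgraph of `G` induced on `S` -/
noncomputable def chi (G : SimpleGraph V) (S : Finset V) : ℕ :=
  sInf {k | ∃ c : V → ℕ, (∀ x ∈ S, c x < k) ∧ ∀ x ∈ S, ∀ y ∈ S, G.Adj x y → c x ≠ c y}

/-- clique number of the subgraph of `G` induced on `S` -/
noncomputable def omega (G : SimpleGraph V) (S : Finset V) : ℕ :=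
  sSup {k | ∃ T ⊆ S, G.IsNClique k T}

/-- the subgraph induced on `A` is perfect -/
def Perfect (G : SimpleGraph V) (A : Finset V) : Prop :=
  ∀ S ⊆ A, chi G S = omega G S

/-- the subgraph induced on `W` is perfectly divisible -/
def PD (G : SimpleGraph V) (W : Finset V) : Prop :=
  ∀ S ⊆ W, (∃ x ∈ S, ∃ y ∈ S, G.Adj x y) →
    ∃ A ⊆ S, Perfect G A ∧ omega G (S \ A) < omega G S

theorem chi_le {G : SimpleGraph V} {S : Finset V} {k : ℕ} (c : V → ℕ) (h1 : ∀ x ∈ S, c x < k)
    (h2 : ∀ x ∈ S, ∀ y ∈ S, G.Adj x y → c x ≠ c y) : chi G S ≤ k :=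
  Nat.sInf_le ⟨c, h1, h2⟩

theorem chi_spec (G : SimpleGraph V) (S : Finset V) :
    ∃ c : V → ℕ, (∀ x ∈ S, c x < chi G S) ∧ ∀ x ∈ S, ∀ y ∈ S, G.Adj x y → c x ≠ c y := by
  have : {k | ∃ c : V → ℕ, (∀ x ∈ S, c x < k) ∧
      ∀ x ∈ S, ∀ y ∈ S, G.Adj x y → c x ≠ c y}.Nonempty := by
    refine ⟨Fintype.card V, fun x => (Fintype.equivFin V x : ℕ), fun x _ => (Fintype.equivFin V x).2,
      fun x _ y _ h e => h.ne ?_⟩
    exact (Fintype.equivFin V).injective (Fin.ext e)
  exact Nat.sInf_mem this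

theorem chi_mono {G : SimpleGraph V} {S T : Finset V} (h : S ⊆ T) : chi G S ≤ chi G T := by
  obtain ⟨c, h1, h2⟩ := chi_spec G T
  exact chi_le c (fun x hx => h1 x (h hx)) (fun x hx y hy => h2 x (h hx) y (h hy))

theorem bdd (G : SimpleGraph V) (S : Finset V) : BddAbove {k | ∃ T ⊆ S, G.IsNClique k T} :=
  ⟨S.card, fun _ ⟨_, hT, hc⟩ => hc.2 ▸ card_le_card hT⟩

theorem le_omega {G : SimpleGraph V} {S T : Finset V} {k : ℕ} (h : T ⊆ S) (hc : G.IsNClique k T) :
    k ≤ omega G S := le_csSup (bdd G S) ⟨T, h, hc⟩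

theorem omega_spec (G : SimpleGraph V) (S : Finset V) : ∃ T ⊆ S, G.IsNClique (omega G S) T :=
  Nat.sSup_mem (s := {k | ∃ T ⊆ S, G.IsNClique k T}) ⟨0, ∅, empty_subset _, by simp⟩ (bdd G S)

theorem omega_le_chi (G : SimpleGraph V) (S : Finset V) : omega G S ≤ chi G S := by
  obtain ⟨T, hT, hc⟩ := omega_spec G S
  obtain ⟨c, h1, h2⟩ := chi_spec G S
  rw [← hc.2, ← card_range (chi G S)]
  apply card_le_card_of_injOn c
  · intro x hx
    simpa using h1 x (hT hx)
  · intro x hx y hy e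
    by_contra hne
    exact h2 x (hT hx) y (hT hy) (hc.1 hx hy hne) e

theorem two_le {G : SimpleGraph V} {S : Finset V} (h : ∃ x ∈ S, ∃ y ∈ S, G.Adj x y) :
    2 ≤ omega G S := by
  obtain ⟨x, hx, y, hy, h1⟩ := h
  refine le_omega (T := {x, y}) ?_ ⟨?_, card_pair h1.ne⟩
  · intro w hw
    simp only [mem_insert, mem_singleton] at hw
    rcases hw with rfl | rfl <;> assumption
  · simpa using fun _ => h1

theorem eq_of_two {G : SimpleGraph V} {S : Finset V} (h : chi G S ≤ 2) : chi G S = omega G S := by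
  apply le_antisymm _ (omega_le_chi G S)
  by_cases he : ∃ x ∈ S, ∃ y ∈ S, G.Adj x y
  · exact h.trans (two_le he)
  · push Not at he
    rcases S.eq_empty_or_nonempty with rfl | ⟨x, hx⟩
    · exact (chi_le (k := 0) (fun _ => 0) (by simp) (by simp)).trans (Nat.zero_le _)
    · refine (chi_le (k := 1) (fun _ => 0) (by simp) (fun a ha b hb hab => absurd hab (he a ha b hb))).trans ?_
      exact le_omega (T := {x}) (by simpa using hx) (by simp)


theorem omega_mono {G : SimpleGraph V} {S T : Finset V} (h : S ⊆ T) : omega G S ≤ omega G T := by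
  obtain ⟨K, hK, hc⟩ := omega_spec G S
  exact le_omega (hK.trans h) hc

theorem card_le_mul (G : SimpleGraph V) (S : Finset V) : S.card ≤ omega Gᶜ S * chi G S := by
  obtain ⟨c, h1, h2⟩ := chi_spec G S
  have := card_le_mul_card_image_of_maps_to (f := c) (s := S) (t := range (chi G S))
    (fun x hx => by simpa using h1 x hx) (omega Gᶜ S) (fun b _ => ?_)
  · simpa using this
  · refine le_omega (filter_subset _ _) ⟨?_, rfl⟩
    intro x hx y hy hne
    simp only [coe_filter, Set.mem_ofPred_eq] at hx hy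
    exact ⟨hne, fun h => h2 x hx.1 y hy.1 h (hx.2.trans hy.2.symm)⟩

theorem split {G : SimpleGraph V} (h : PD G univ) (S : Finset V) :
    ∃ A ⊆ S, Perfect G A ∧ (S.Nonempty → omega G (S \ A) < omega G S) := by
  by_cases he : ∃ x ∈ S, ∃ y ∈ S, G.Adj x y
  · obtain ⟨A, h1, h2, h3⟩ := h S (subset_univ _) he
    exact ⟨A, h1, h2, fun _ => h3⟩
  · push Not at he
    refine ⟨S, subset_refl _, fun T hT => eq_of_two ?_, fun ⟨x, hx⟩ => ?_⟩
    · exact (chi_le (k := 1) (fun _ => 0) (by simp)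
        (fun a ha b hb hab => absurd hab (he a (hT ha) b (hT hb)))).trans (by norm_num)
    · have h1 : 1 ≤ omega G S := le_omega (T := {x}) (by simpa using hx) (by simp)
      have h2 : omega G (S \ S) ≤ 0 := (omega_le_chi _ _).trans
        (chi_le (k := 0) (fun _ => 0) (by simp) (by simp))
      omega

variable {n : ℕ}

def lex (C : SimpleGraph (Fin n)) (H : SimpleGraph V) : SimpleGraph (Fin n × V) where
  Adj p q := C.Adj p.1 q.1 ∨ (p.1 = q.1 ∧ H.Adj p.2 q.2)
  symm := ⟨fun _ _ h => h.imp (fun h => h.symm) (fun h => ⟨h.1.symm, h.2.symm⟩)⟩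
  loopless := ⟨fun _ h => h.elim (fun h => C.irrefl h) (fun h => H.irrefl h.2)⟩

theorem lex_compl (C : SimpleGraph (Fin n)) (H : SimpleGraph V) : (lex C H)ᶜ = lex Cᶜ Hᶜ := by
  ext ⟨a, x⟩ ⟨b, y⟩
  simp only [SimpleGraph.compl_adj, lex, ne_eq, Prod.mk.injEq]
  by_cases e : a = b
  · subst e; simp
  · simp [e]

def fib (X : Finset (Fin n × V)) (v : Fin n) : Finset V := univ.filter fun x => (v, x) ∈ X

theorem mem_fib {X : Finset (Fin n × V)} {v : Fin n} {x : V} : x ∈ fib X v ↔ (v, x) ∈ X := by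
  simp [fib]

theorem l1 {C : SimpleGraph (Fin n)} (H : SimpleGraph V) (X : Finset (Fin n × V))
    {Q : Finset (Fin n)} (h : C.IsClique Q) :
    ∑ v ∈ Q, omega H (fib X v) ≤ omega (lex C H) X := by
  choose K hK hc using fun v => omega_spec H (fib X v)
  refine le_omega (T := Q.biUnion (fun v => (K v).image (fun x => (v, x)))) ?_ ⟨?_, ?_⟩
  · intro p hp
    simp only [mem_biUnion, mem_image] at hp
    obtain ⟨v, _, x, hx, rfl⟩ := hp
    exact mem_fib.1 (hK v hx)
  · intro p hp q hq hne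
    simp only [mem_coe, mem_biUnion, mem_image] at hp hq
    obtain ⟨u, hu, x, hx, rfl⟩ := hp
    obtain ⟨v, hv, y, hy, rfl⟩ := hq
    by_cases e : u = v
    · subst e
      exact Or.inr ⟨rfl, (hc u).1 hx hy (fun e => hne (by rw [e]))⟩
    · exact Or.inl (h hu hv e)
  · rw [card_biUnion]
    · exact sum_congr rfl (fun v _ => by
        rw [card_image_of_injective _ (Prod.mk_right_injective v), (hc v).2])
    · intro u _ v _ huv
      rw [Function.onFun, disjoint_left]
      intro p hp hq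
      simp only [mem_image] at hp hq
      obtain ⟨x, _, rfl⟩ := hp
      obtain ⟨y, _, e⟩ := hq
      exact huv (congrArg Prod.fst e).symm

theorem l2 {C : SimpleGraph (Fin n)} (H : SimpleGraph V) (X : Finset (Fin n × V)) :
    ∃ Q ⊆ X.image Prod.fst, C.IsClique Q ∧ omega (lex C H) X ≤ ∑ v ∈ Q, omega H (fib X v) := by
  obtain ⟨K, hK, hc⟩ := omega_spec (lex C H) X
  refine ⟨K.image Prod.fst, image_subset_image hK, ?_, ?_⟩
  · intro u hu v hv hne
    simp only [coe_image, Set.mem_image, mem_coe] at hu hv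
    obtain ⟨p, hp, rfl⟩ := hu
    obtain ⟨q, hq, rfl⟩ := hv
    exact (hc.1 hp hq (fun e => hne (by rw [e]))).resolve_right (fun h => hne h.1)
  · rw [← hc.2, card_eq_sum_card_image Prod.fst K]
    refine sum_le_sum (fun w _ => ?_)
    have key : (fib K w).card ≤ omega H (fib X w) := by
      refine le_omega (fun x hx => mem_fib.2 (hK (mem_fib.1 hx))) ⟨?_, rfl⟩
      intro x hx y hy hne
      rcases hc.1 (mem_fib.1 hx) (mem_fib.1 hy) (fun e => hne (congrArg Prod.snd e)) with h | h
      · exact absurd h C.irrefl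
      · exact h.2
    refine le_trans ?_ key
    refine card_le_card_of_injOn Prod.snd ?_ ?_
    · intro p hp
      simp only [coe_filter, Set.mem_ofPred_eq] at hp
      exact mem_coe.2 (mem_fib.2 (by rw [← hp.2]; exact hp.1))
    · intro p hp q hq e
      simp only [coe_filter, Set.mem_ofPred_eq] at hp hq
      exact Prod.ext (hp.2.trans hq.2.symm) e

def Nice (C : SimpleGraph (Fin n)) : Prop :=
  ∀ T : Finset (Fin n), T.Nonempty → ∃ A ⊆ T,
    (∀ Q ⊆ T, C.IsClique Q → (∃ v ∈ Q, v ∈ A) ∨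
      ∃ v ∈ T, v ∉ Q ∧ C.IsClique (insert v Q : Finset (Fin n))) ∧
    ∀ (w : Fin n → ℕ) (W : ℕ), (∀ Q : Finset (Fin n), C.IsClique Q → ∑ v ∈ Q, w v ≤ W) →
      ∃ s : Fin n → ℕ, (∀ v ∈ A, s v + w v ≤ W) ∧
        ∀ u ∈ A, ∀ v ∈ A, C.Adj u v → s u + w u ≤ s v ∨ s v + w v ≤ s u

theorem omega_lex_le (C : SimpleGraph (Fin n)) (H : SimpleGraph V) :
    omega (lex C H) univ ≤ omega C univ * omega H univ := by
  obtain ⟨Q, _, hQ, h⟩ := l2 (C := C) H univ
  have h1 : Q.card ≤ omega C univ := le_omega (subset_univ _) ⟨hQ, rfl⟩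
  refine h.trans ((sum_le_card_nsmul _ _ (omega H univ)
    (fun v _ => omega_mono (subset_univ _))).trans ?_)
  exact Nat.mul_le_mul_right _ h1

theorem omega_lex (C : SimpleGraph (Fin n)) (H : SimpleGraph V) :
    omega (lex C H) univ = omega C univ * omega H univ := by
  refine le_antisymm (omega_lex_le C H) ?_
  obtain ⟨Q, _, hQ⟩ := omega_spec C univ
  have := l1 H univ hQ.1
  have hf : ∀ v, fib (univ : Finset (Fin n × V)) v = univ := fun v => by simp [fib]
  simp only [hf, sum_const, smul_eq_mul, hQ.2] at this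
  exact this

theorem pd_lex {C : SimpleGraph (Fin n)} (hC : Nice C) {H : SimpleGraph V} (hH : PD H univ) :
    PD (lex C H) univ := by
  intro S _ ⟨x0, hx0, _⟩
  choose A hA1 hA2 hA3 using fun v => split hH (fib S v)
  obtain ⟨A0, hT, h1, h2⟩ := hC (S.image Prod.fst) ⟨_, mem_image_of_mem _ hx0⟩
  have hne : ∀ v ∈ S.image Prod.fst, (fib S v).Nonempty := by
    intro v hv
    obtain ⟨r, hr, rfl⟩ := mem_image.1 hv
    exact ⟨r.2, mem_fib.2 hr⟩
  refine ⟨S.filter (fun r => r.1 ∈ A0 ∧ r.2 ∈ A r.1), filter_subset _ _, ?_, ?_⟩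
  · intro X hX
    apply le_antisymm _ (omega_le_chi _ _)
    have hw : ∀ v, chi H (fib X v) = omega H (fib X v) := fun v =>
      hA2 v _ (fun x hx => (mem_filter.1 (hX (mem_fib.1 hx))).2.2)
    choose c c1 c2 using fun v => chi_spec H (fib X v)
    obtain ⟨s, s1, s2⟩ := h2 (fun v => omega H (fib X v)) _ (fun Q hQ => l1 H X hQ)
    refine chi_le (fun r => s r.1 + c r.1 r.2) ?_ ?_
    · intro r hr
      have a1 := c1 r.1 r.2 (mem_fib.2 hr)
      rw [hw] at a1
      have := s1 _ (mem_filter.1 (hX hr)).2.1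
      omega
    · intro r hr t ht hrs
      have a1 := c1 r.1 r.2 (mem_fib.2 hr)
      have a2 := c1 t.1 t.2 (mem_fib.2 ht)
      rw [hw] at a1 a2
      rcases hrs with h | h
      · have := s2 _ (mem_filter.1 (hX hr)).2.1 _ (mem_filter.1 (hX ht)).2.1 h
        omega
      · have a3 := c2 r.1 r.2 (mem_fib.2 hr) t.2 (mem_fib.2 (by rw [h.1]; exact ht)) h.2
        rw [← h.1]
        omega
  · set B := S \ S.filter (fun r => r.1 ∈ A0 ∧ r.2 ∈ A r.1) with hB
    obtain ⟨Q, hQ1, hQ, h⟩ := l2 (C := C) H B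
    have hQT : Q ⊆ S.image Prod.fst := hQ1.trans (image_subset_image sdiff_subset)
    have a2 : ∀ u, omega H (fib B u) ≤ omega H (fib S u) := fun u =>
      omega_mono (fun x hx => mem_fib.2 (mem_sdiff.1 (mem_fib.1 hx)).1)
    refine lt_of_le_of_lt h ?_
    rcases h1 Q hQT hQ with ⟨v, hv, hv'⟩ | ⟨v, hv, hv', hq⟩
    · refine lt_of_lt_of_le (sum_lt_sum (fun u _ => a2 u) ⟨v, hv, ?_⟩) (l1 H S hQ)
      refine lt_of_le_of_lt (omega_mono (fun x hx => ?_)) (hA3 v (hne v (hT hv')))
      have := mem_sdiff.1 (mem_fib.1 hx)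
      exact mem_sdiff.2 ⟨mem_fib.2 this.1, fun hx' => this.2 (mem_filter.2 ⟨this.1, hv', hx'⟩)⟩
    · have a3 := l1 H S hq
      rw [sum_insert hv'] at a3
      obtain ⟨x, hx⟩ := hne v hv
      have a4 : 1 ≤ omega H (fib S v) := le_omega (T := {x}) (by simpa using hx) (by simp)
      have a5 : ∑ u ∈ Q, omega H (fib B u) ≤ ∑ u ∈ Q, omega H (fib S u) :=
        sum_le_sum (fun u _ => a2 u)
      omega

end Defs

theorem nice1 {n : ℕ} (C : SimpleGraph (Fin n)) (g : Fin n → ℕ) (g1 : ∀ v, g v < 3)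
    (g2 : ∀ u v, C.Adj u v → g u ≠ g v) : Nice C := by
  classical
  intro T hT
  refine ⟨T.filter (fun v => g v < 2 ∨ ∀ u ∈ T, ¬ C.Adj u v), filter_subset _ _, ?_, ?_⟩
  · intro Q hQ hc
    rcases Q.eq_empty_or_nonempty with rfl | ⟨a, ha⟩
    · obtain ⟨v, hv⟩ := hT
      exact Or.inr ⟨v, hv, by simp, by simp⟩
    · by_cases h : ∃ v ∈ Q, v ∈ T.filter (fun v => g v < 2 ∨ ∀ u ∈ T, ¬ C.Adj u v)
      · exact Or.inl h
      · right
        simp only [mem_filter, not_exists, not_and, not_or, not_forall, not_not] at h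
        have hQa : ∀ b ∈ Q, b = a := by
          intro b hb
          by_contra e
          have := g2 _ _ (hc hb ha e)
          have := (h a ha (hQ ha)).1
          have := (h b hb (hQ hb)).1
          have := g1 a
          have := g1 b
          omega
        obtain ⟨u, hu, hua⟩ := (h a ha (hQ ha)).2
        refine ⟨u, hu, fun hh => hua.ne (hQa u hh), ?_⟩
        rw [coe_insert]
        exact hc.insert (fun b hb _ => by rw [hQa b hb]; exact hua)
  · intro w W hW
    have h1 : ∀ v, w v ≤ W := fun v => by simpa using hW {v} (by simp)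
    have h2 : ∀ u v, C.Adj u v → w u + w v ≤ W := fun u v h => by
      have := hW {u, v} (by simpa using fun _ => h)
      rwa [sum_pair h.ne] at this
    refine ⟨fun v => if g v = 0 then 0 else W - w v, fun v _ => ?_, fun u hu v hv h => ?_⟩
    · have := h1 v
      beta_reduce
      split_ifs <;> omega
    · have a1 := ((mem_filter.1 hu).2.resolve_right (fun hh => hh v (mem_filter.1 hv).1 h.symm))
      have a2 := ((mem_filter.1 hv).2.resolve_right (fun hh => hh u (mem_filter.1 hu).1 h))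
      have := g2 u v h
      have := h2 u v h
      beta_reduce
      split_ifs <;> omega

theorem nice2 {n : ℕ} (C : SimpleGraph (Fin n))
    (tf : ∀ a b c, C.Adj a b → C.Adj a c → ¬ C.Adj b c) : Nice Cᶜ := by
  classical
  intro T ⟨z, hz⟩
  refine ⟨T.filter (fun v => v = z ∨ C.Adj z v), filter_subset _ _, ?_, ?_⟩
  · intro Q hQ hc
    by_cases h : ∃ v ∈ Q, v ∈ T.filter (fun v => v = z ∨ C.Adj z v)
    · exact Or.inl h
    · right
      simp only [mem_filter, not_exists, not_and, not_or] at h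
      refine ⟨z, hz, fun hh => (h z hh hz).1 rfl, ?_⟩
      rw [coe_insert]
      exact hc.insert (fun b hb e => ⟨e, (h b hb (hQ hb)).2⟩)
  · intro w W hW
    have h1 : ∀ v, w v ≤ W := fun v => by simpa using hW {v} (by simp)
    have key : ∀ u v, C.Adj z u → u < v →
        ∑ x ∈ univ.filter (fun x => C.Adj z x ∧ x < u), w x + w u ≤
          ∑ x ∈ univ.filter (fun x => C.Adj z x ∧ x < v), w x := by
      intro u v hu huv
      rw [add_comm, ← sum_insert (by simp)]
      refine sum_le_sum_of_subset (fun x hx => ?_)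
      simp only [mem_insert, mem_filter, mem_univ, true_and] at hx ⊢
      rcases hx with rfl | hx
      · exact ⟨hu, huv⟩
      · exact ⟨hx.1, hx.2.trans huv⟩
    refine ⟨fun v => if v = z then 0 else ∑ x ∈ univ.filter (fun x => C.Adj z x ∧ x < v), w x,
      fun v hv => ?_, fun u hu v hv h => ?_⟩
    · beta_reduce
      split_ifs with e
      · simpa using h1 v
      · have hv' := (mem_filter.1 hv).2.resolve_left e
        rw [add_comm, ← sum_insert (by simp)]
        refine hW _ ?_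
        intro a ha b hb hab
        have f : ∀ a, a ∈ ((insert v (univ.filter (fun x => C.Adj z x ∧ x < v)) :
            Finset (Fin n)) : Set (Fin n)) → C.Adj z a := by
          intro a ha
          simp only [coe_insert, coe_filter, mem_univ, true_and, Set.mem_insert_iff,
            Set.mem_ofPred_eq] at ha
          rcases ha with rfl | ha
          · exact hv'
          · exact ha.1
        exact ⟨hab, tf z a b (f a ha) (f b hb)⟩
    · have hu2 := (mem_filter.1 hu).2
      have hv2 := (mem_filter.1 hv).2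
      have eu : u ≠ z := by
        rintro rfl
        exact h.2 (hv2.resolve_left h.1.symm)
      have ev : v ≠ z := by
        rintro rfl
        exact h.2 (hu2.resolve_left h.1).symm
      simp only [if_neg eu, if_neg ev]
      rcases lt_or_gt_of_ne h.1 with l | l
      · exact Or.inl (key u v (hu2.resolve_left eu) l)
      · exact Or.inr (key v u (hv2.resolve_left ev) l)

def andr (k : ℕ) : SimpleGraph (Fin (3 * k + 2)) where
  Adj i j := ((i : ℕ) + (k + 1) ≤ j ∧ (j : ℕ) < i + 2 * (k + 1)) ∨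
    ((j : ℕ) + (k + 1) ≤ i ∧ (i : ℕ) < j + 2 * (k + 1))
  symm := ⟨fun _ _ h => h.symm⟩
  loopless := ⟨fun _ h => by omega⟩

theorem andr_tf (k : ℕ) : ∀ a b c, (andr k).Adj a b → (andr k).Adj a c → ¬ (andr k).Adj b c := by
  intro a b c h1 h2 h3
  simp only [andr] at h1 h2 h3
  omega

theorem andr_nice (k : ℕ) : Nice (andr k) := by
  refine nice1 _ (fun i => if (i : ℕ) < k + 1 then 0 else if (i : ℕ) < 2 * (k + 1) then 1 else 2)
    (fun v => by split_ifs <;> omega) (fun u v h => ?_)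
  simp only [andr] at h
  have := u.2
  have := v.2
  split_ifs <;> omega

theorem andr_omega (k : ℕ) : omega (andr k) univ = 2 := by
  apply le_antisymm
  · obtain ⟨T, _, hc⟩ := omega_spec (andr k) univ
    by_contra h
    obtain ⟨U, hU, hU3⟩ := exists_subset_card_eq (s := T) (n := 3) (by rw [hc.2]; omega)
    have : (andr k).IsNClique 3 U := ⟨hc.1.subset (by exact_mod_cast hU), hU3⟩
    obtain ⟨x, y, z, h1, h2, h3, rfl⟩ := SimpleGraph.is3Clique_iff.1 this
    exact andr_tf k x y z h1 h2 h3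
  · exact two_le ⟨⟨0, by omega⟩, mem_univ _, ⟨k + 1, by omega⟩, mem_univ _, by simp [andr]⟩

theorem andr_alpha (k : ℕ) : omega (andr k)ᶜ univ ≤ k + 1 := by
  obtain ⟨T, _, hc⟩ := omega_spec (andr k)ᶜ univ
  rcases T.eq_empty_or_nonempty with rfl | hT
  · have := hc.2; simp at this; omega
  · obtain ⟨a, ha, hmin⟩ := T.exists_min_image (fun i => (i : ℕ)) hT
    have na : ∀ x ∈ T, ∀ y ∈ T, ¬ (andr k).Adj x y := by
      intro x hx y hy h
      exact (hc.1 hx hy h.ne).2 h
    rw [← hc.2, ← card_range (k + 1)]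
    refine card_le_card_of_injOn
      (fun i => if (i : ℕ) < a + (k + 1) then (i : ℕ) - a else (i : ℕ) - a - (2 * k + 1)) ?_ ?_
    · intro x hx
      have := x.2
      simp only [coe_range, Set.mem_Iio]
      split_ifs <;> omega
    · intro x hx y hy e
      have b1 := na a ha x hx
      have b2 := na a ha y hy
      have b3 := na x hx y hy
      have := hmin x hx
      have := hmin y hy
      simp only [andr] at b1 b2 b3
      apply Fin.ext
      simp only at e
      split_ifs at e <;> omega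

theorem aux (k j : ℕ) : ∃ (V : Type) (_ : Fintype V) (_ : DecidableEq V) (G : SimpleGraph V),
    PD G univ ∧ PD Gᶜ univ ∧ omega G univ = 2 ^ j ∧ omega Gᶜ univ ≤ (k + 1) ^ j ∧
      Fintype.card V = (3 * k + 2) ^ j := by
  induction j with
  | zero =>
    have h1 : ∀ G : SimpleGraph Unit, PD G univ := fun G S _ ⟨x, _, y, _, h⟩ =>
      absurd (Subsingleton.elim x y) h.ne
    have h2 : ∀ G : SimpleGraph Unit, omega G univ = 1 := by
      intro G
      apply le_antisymm
      · exact (omega_le_chi _ _).trans (chi_le (fun _ => 0) (by simp)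
          (fun x _ y _ h => absurd (Subsingleton.elim x y) h.ne))
      · exact le_omega (T := {()}) (by simp) (by simp)
    exact ⟨Unit, inferInstance, inferInstance, ⊥, h1 _, h1 _, by rw [h2]; simp, by rw [h2]; simp,
      by simp⟩
  | succ j ih =>
    obtain ⟨V, _, _, G, h1, h2, h3, h4, h5⟩ := ih
    refine ⟨Fin (3 * k + 2) × V, inferInstance, inferInstance, lex (andr k) G,
      pd_lex (andr_nice k) h1, ?_, ?_, ?_, ?_⟩
    · rw [lex_compl]; exact pd_lex (nice2 _ (andr_tf k)) h2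
    · rw [omega_lex, h3, andr_omega]; ring
    · rw [lex_compl, pow_succ']
      exact (omega_lex_le _ _).trans (Nat.mul_le_mul (andr_alpha k) h4)
    · rw [Fintype.card_prod, h5, Fintype.card_fin]; ring

theorem bern (j : ℕ) : (j * 3 ^ j + 1) ^ j * (3 ^ j - 1) < (3 * (j * 3 ^ j) + 2) ^ j := by
  set m : ℕ := j * 3 ^ j + 1 with hm
  have hm0 : (0 : ℝ) < m := by positivity
  have h1 : (1 : ℝ) + j * (-(1 / (3 * m))) ≤ (1 + -(1 / (3 * m))) ^ j := by
    apply one_add_mul_le_pow
    have : (1 : ℝ) / (3 * m) ≤ 1 := by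
      rw [div_le_one (by positivity)]
      have : (1 : ℝ) ≤ m := by exact_mod_cast (by omega : 1 ≤ m)
      linarith
    linarith
  have h2 : ((3 * (j * 3 ^ j) + 2 : ℕ) : ℝ) = (3 * m) * (1 + -(1 / (3 * m))) := by
    have : ((3 * (j * 3 ^ j) + 2 : ℕ) : ℝ) = 3 * m - 1 := by rw [hm]; push_cast; ring
    rw [this]; field_simp; ring
  have h3 : 1 ≤ 3 ^ j := Nat.one_le_pow _ _ (by norm_num)
  have h4 : (3 : ℝ) ^ j - 1 < 3 ^ j * (1 + j * (-(1 / (3 * m)))) := by
    have : (3 : ℝ) ^ j * (j * (1 / (3 * m))) < 1 := by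
      rw [← mul_assoc, mul_one_div, div_lt_one (by positivity), hm]
      push_cast
      have : (0 : ℝ) ≤ j * 3 ^ j := by positivity
      nlinarith
    nlinarith
  have : ((m ^ j * (3 ^ j - 1) : ℕ) : ℝ) < ((3 * (j * 3 ^ j) + 2 : ℕ) : ℝ) ^ j := by
    rw [h2, mul_pow, mul_pow]
    push_cast [h3]
    have h5 : (0 : ℝ) < (m : ℝ) ^ j := by positivity
    have h6 : (0 : ℝ) < (3 : ℝ) ^ j := by positivity
    calc (m : ℝ) ^ j * (3 ^ j - 1) < (m : ℝ) ^ j * (3 ^ j * (1 + j * (-(1 / (3 * m))))) :=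
          mul_lt_mul_of_pos_left h4 h5
      _ ≤ (m : ℝ) ^ j * (3 ^ j * (1 + -(1 / (3 * m))) ^ j) := by gcongr
      _ = _ := by ring
  exact_mod_cast this

theorem result (j : ℕ) : ∃ (V : Type) (_ : Fintype V) (_ : DecidableEq V) (G : SimpleGraph V),
    PD G univ ∧ PD Gᶜ univ ∧ omega G univ = 2 ^ j ∧ 3 ^ j ≤ chi G univ := by
  obtain ⟨V, _, _, G, h1, h2, h3, h4, h5⟩ := aux (j * 3 ^ j) j
  refine ⟨V, _, _, G, h1, h2, h3, ?_⟩
  have := card_le_mul G univ
  rw [card_univ, h5] at this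
  have hb := bern j
  by_contra h
  have h6 : omega Gᶜ univ * chi G univ ≤ (j * 3 ^ j + 1) ^ j * (3 ^ j - 1) :=
    Nat.mul_le_mul h4 (by omega)
  omega

end Pool.Agent.Results.MP_ab9fcb_co.Three
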